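import Pool.Agent.H466.HE.SA

/-!
# LLNg (project HE of helper466): the local average is close to its main term, general bands
-/

set_option autoImplicit false

namespace Pool.Agent.H997.HE.LLNg

open Complex MeasureTheory Set Filter Topology
open Pool.Agent.H477.E (MT bc Nn)
open Pool.Agent.H466.HD Pool.Agent.H466.HE

theorem mem_Pb {c w : ℝ} {p : ℕ} (hp : p ∈ Pb c w) :
    p.Prime ∧ c - w ≤ Real.log p ∧ (p : ℝ) ≤ Real.exp (c + w) ∧ 1 ≤ p ∧
      p ≤ ⌊Real.exp (c + w)⌋₊ := by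
  obtain ⟨h1, h2, h3⟩ := Finset.mem_filter.1 hp
  obtain ⟨h4, h5⟩ := Finset.mem_Icc.1 h1
  exact ⟨h2, h3, (Nat.le_floor_iff (Real.exp_pos _).le).1 h5, h4, h5⟩

/-- few primes of the band divide a number of moderate size -/
theorem count {ε L c w : ℝ} (hε : 0 < ε) (hL : 0 < L) (hlo : ε * L ≤ c - w) {k : ℕ} (hk : 1 ≤ k)
    (hk2 : (k : ℝ) ≤ Real.exp (9 / 8 * L)) :
    ((((Pb c w).filter (fun p => p ∣ k)).card : ℕ) : ℝ) ≤ 9 / (8 * ε) := by
  set S := (Pb c w).filter (fun p => p ∣ k) with hS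
  have hmem : ∀ p ∈ S, p.Prime ∧ ε * L ≤ Real.log p ∧ p ∣ k := by
    intro p hp
    obtain ⟨h1, h2⟩ := Finset.mem_filter.1 hp
    obtain ⟨h3, h4, -⟩ := mem_Pb h1
    exact ⟨h3, hlo.trans h4, h2⟩
  have h1 : ∏ p ∈ S, p ∣ k :=
    Finset.prod_primes_dvd k (fun p hp => (hmem p hp).1.prime) (fun p hp => (hmem p hp).2.2)
  have h2 : ∏ p ∈ S, p ≤ k := Nat.le_of_dvd hk h1
  have h3 : Real.exp (ε * L) ^ S.card ≤ ∏ p ∈ S, (p : ℝ) := by
    rw [← Finset.prod_const]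
    refine Finset.prod_le_prod (fun p _ => (Real.exp_pos _).le) fun p hp => ?_
    have hp0 : (0 : ℝ) < p := by exact_mod_cast (hmem p hp).1.pos
    calc Real.exp (ε * L) ≤ Real.exp (Real.log p) := Real.exp_le_exp.2 (hmem p hp).2.1
      _ = p := Real.exp_log hp0
  have h4 : Real.exp (S.card * (ε * L)) ≤ Real.exp (9 / 8 * L) := by
    rw [Real.exp_nat_mul]
    refine h3.trans (le_trans ?_ hk2)
    have h2' : ((∏ p ∈ S, p : ℕ) : ℝ) ≤ (k : ℝ) := Nat.cast_le.2 h2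
    rwa [Nat.cast_prod] at h2'
  have h5 := Real.exp_le_exp.1 h4
  have h6 : (S.card : ℝ) * ε ≤ 9 / 8 := by
    have h7 : ((S.card : ℝ) * ε) * L ≤ 9 / 8 * L := by
      calc ((S.card : ℝ) * ε) * L = S.card * (ε * L) := by ring
        _ ≤ _ := h5
    exact le_of_mul_le_mul_right h7 hL
  rw [le_div_iff₀ (by positivity)]
  linarith

/-- counting multiples -/
theorem double (P : Finset ℕ) (X n : ℕ) (hP : ∀ p ∈ P, 1 ≤ p ∧ p ≤ X) (D : ℝ)
    (hD : ∀ k ∈ Finset.Icc 1 (X * n), (((P.filter (fun p => p ∣ k)).card : ℕ) : ℝ) ≤ D)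
    (F : ℕ → ℝ) (hF : ∀ k, 0 ≤ F k) :
    ∑ j ∈ Finset.Icc 1 n, ∑ p ∈ P, F (p * j) ≤ D * ∑ k ∈ Finset.Icc 1 (X * n), F k := by
  rw [Finset.sum_comm]
  have h1 : ∀ p ∈ P, ∑ j ∈ Finset.Icc 1 n, F (p * j) ≤
      ∑ k ∈ Finset.Icc 1 (X * n), if p ∣ k then F k else 0 := by
    intro p hp
    obtain ⟨hp1, hp2⟩ := hP p hp
    have hinj : Set.InjOn (fun j : ℕ => p * j) (Finset.Icc 1 n : Finset ℕ) := by
      intro a _ b _ hab
      exact Nat.eq_of_mul_eq_mul_left hp1 hab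
    have h2 := Finset.sum_image (f := F) hinj
    rw [← Finset.sum_filter, ← h2]
    refine Finset.sum_le_sum_of_subset_of_nonneg ?_ fun k _ _ => hF k
    intro k hk
    obtain ⟨j, hj, rfl⟩ := Finset.mem_image.1 hk
    obtain ⟨hj1, hj2⟩ := Finset.mem_Icc.1 hj
    refine Finset.mem_filter.2 ⟨Finset.mem_Icc.2 ⟨?_, ?_⟩, Dvd.intro _ rfl⟩
    · exact Nat.mul_pos hp1 hj1
    · exact Nat.mul_le_mul hp2 hj2
  refine (Finset.sum_le_sum h1).trans ?_
  rw [Finset.sum_comm, Finset.mul_sum]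
  refine Finset.sum_le_sum fun k hk => ?_
  rw [← Finset.sum_filter, Finset.sum_const, nsmul_eq_mul]
  exact mul_le_mul_of_nonneg_right (hD k hk) (hF k)

/-- Cauchy-Schwarz for the terms divisible by the prime -/
theorem cs {β : ℝ → ℝ} (hβ0 : ∀ x, 0 ≤ β x) (hβ1 : ∀ x, β x ≤ 1) (θ L c w : ℝ) (j : ℕ) :
    ‖hf θ L β c w j‖ ^ 2 ≤ (∑ p ∈ Pb c w, 1 / (p : ℝ)) *
      ∑ p ∈ Pb c w, ‖cf θ L β c w (p * j)‖ ^ 2 / p := by
  have h1 : ‖hf θ L β c w j‖ ≤ ∑ p ∈ Pb c w,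
      (1 / Real.sqrt p) * (‖cf θ L β c w (p * j)‖ / Real.sqrt p) := by
    unfold hf
    refine (norm_sum_le _ _).trans (Finset.sum_le_sum fun p hp => ?_)
    have hp0 : (0 : ℝ) < p := by exact_mod_cast (mem_Pb hp).1.pos
    rw [norm_mul, norm_div, Complex.norm_natCast, Complex.norm_real, Real.norm_eq_abs,
      abs_of_nonneg (hβ0 _)]
    have h2 : (1 / Real.sqrt p) * (‖cf θ L β c w (p * j)‖ / Real.sqrt p) =
        1 / p * ‖cf θ L β c w (p * j)‖ := by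
      rw [div_mul_div_comm, Real.mul_self_sqrt hp0.le]
      ring
    rw [h2]
    refine mul_le_mul_of_nonneg_right ?_ (norm_nonneg _)
    exact div_le_div_of_nonneg_right (hβ1 _) hp0.le
  have h2 : (∑ p ∈ Pb c w, (1 / Real.sqrt p) * (‖cf θ L β c w (p * j)‖ / Real.sqrt p)) ^ 2 ≤
      (∑ p ∈ Pb c w, (1 / Real.sqrt p) ^ 2) *
        ∑ p ∈ Pb c w, (‖cf θ L β c w (p * j)‖ / Real.sqrt p) ^ 2 :=
    Finset.sum_mul_sq_le_sq_mul_sq _ _ _
  have h3 : ∑ p ∈ Pb c w, (1 / Real.sqrt (p : ℝ)) ^ 2 = ∑ p ∈ Pb c w, 1 / (p : ℝ) := by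
    refine Finset.sum_congr rfl fun p _ => ?_
    rw [div_pow, one_pow, Real.sq_sqrt (Nat.cast_nonneg p)]
  have h4 : ∑ p ∈ Pb c w, (‖cf θ L β c w (p * j)‖ / Real.sqrt p) ^ 2 =
      ∑ p ∈ Pb c w, ‖cf θ L β c w (p * j)‖ ^ 2 / p := by
    refine Finset.sum_congr rfl fun p _ => ?_
    rw [div_pow, Real.sq_sqrt (Nat.cast_nonneg p)]
  rw [h3, h4] at h2
  exact (pow_le_pow_left₀ (norm_nonneg _) h1 2).trans h2

/-- sum of the reciprocals of the primes of the band -/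
theorem recip {C : ℝ} (hC : 0 < C)
    (hPR : ∀ (u w x : ℝ) (N : ℕ), 1 ≤ u → 0 < w → w ≤ 1 →
      ∑ p ∈ (Finset.Icc 1 N).filter (fun p : ℕ => p.Prime ∧ u ≤ Real.log p),
        Real.exp (-(w ^ 2 * (x - Real.log p) ^ 2)) / p ≤ C / (w * u))
    {ε L c w : ℝ} (hε : 0 < ε) (hL : 4 ≤ L) (hεL : 1 ≤ ε * L) (hlo : ε * L ≤ c - w)
    (hhi : c + w ≤ L / 2) :
    ∑ p ∈ Pb c w, 1 / (p : ℝ) ≤ 2 * C / ε := by
  have hL0 : 0 < L := by linarith
  have h1 := hPR (c - w) (1 / L) 0 ⌊Real.exp (c + w)⌋₊ (by linarith) (by positivity)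
    (by rw [div_le_one hL0]; linarith)
  have h2 : ∑ p ∈ Pb c w, 1 / (p : ℝ) ≤ 2 * ∑ p ∈ Pb c w,
      Real.exp (-((1 / L) ^ 2 * (0 - Real.log p) ^ 2)) / p := by
    rw [Finset.mul_sum]
    refine Finset.sum_le_sum fun p hp => ?_
    obtain ⟨hpp, hp1, hp2, -⟩ := mem_Pb hp
    have hp0 : (0 : ℝ) < p := by exact_mod_cast hpp.pos
    have hl0 : 0 ≤ Real.log p := by linarith
    have hl1 : Real.log p ≤ L / 2 := by
      have := Real.log_le_log hp0 hp2
      rw [Real.log_exp] at this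
      linarith
    have h3 : (1 / L) ^ 2 * (0 - Real.log p) ^ 2 ≤ 1 / 4 := by
      have : (1 / L) ^ 2 * (0 - Real.log p) ^ 2 = (Real.log p / L) ^ 2 := by ring
      rw [this]
      have h4 : Real.log p / L ≤ 1 / 2 := by
        rw [div_le_iff₀ hL0]; linarith
      have h5 : 0 ≤ Real.log p / L := by positivity
      nlinarith
    have h4 : 1 / 2 ≤ Real.exp (-((1 / L) ^ 2 * (0 - Real.log p) ^ 2)) := by
      have := Real.add_one_le_exp (-((1 / L) ^ 2 * (0 - Real.log p) ^ 2))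
      linarith
    rw [← mul_div_assoc]
    exact div_le_div_of_nonneg_right (by linarith) hp0.le
  have h3 : C / (1 / L * (c - w)) ≤ C / ε := by
    have h4 : 0 < c - w := by linarith
    refine div_le_div_of_nonneg_left hC.le hε ?_
    rw [div_mul_eq_mul_div, one_mul, le_div_iff₀ hL0]
    linarith
  have h4 : ∑ p ∈ Pb c w, Real.exp (-((1 / L) ^ 2 * (0 - Real.log p) ^ 2)) / p ≤
      C / (1 / L * (c - w)) := h1
  have h5 : 2 * C / ε = 2 * (C / ε) := by ring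
  rw [h5]
  linarith

theorem llng (h1 : S_CKg) (h2 : S_L2g) (h3 : S_L3g) (h4 : S_PR) : S_LLNg := by
  intro β k C0 hb ε hε
  obtain ⟨θ1, hθ1, H1⟩ := h1 β k C0 hb ε hε
  obtain ⟨θ2, hθ2, H2⟩ := h2 β k C0 hb ε hε
  obtain ⟨⟨C4, hC4, H4⟩, -⟩ := h4
  refine ⟨min (min θ1 θ2) (min (1 / 16) (ε / 8)), by positivity, fun θ hθ hθle => ?_⟩
  have hθa : θ ≤ θ1 := hθle.trans ((min_le_left _ _).trans (min_le_left _ _))
  have hθb : θ ≤ θ2 := hθle.trans ((min_le_left _ _).trans (min_le_right _ _))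
  have hθc : θ ≤ 1 / 16 := hθle.trans ((min_le_right _ _).trans (min_le_left _ _))
  have hθd : θ ≤ ε / 8 := hθle.trans ((min_le_right _ _).trans (min_le_right _ _))
  obtain ⟨C1, T1, hC1, hT1, H1⟩ := H1 θ hθ hθa
  obtain ⟨T2, hT2, H2⟩ := H2 θ hθ hθb
  obtain ⟨C3, T3, hC3, hT3, H3⟩ := h3 β k C0 hb ε hε θ hθ hθc hθd
  refine ⟨4 * (C1 * C4 / ε + 3 * C3 + 3 / (2 * θ) * (2 * C4 / ε * (9 / (8 * ε) * C1))),
    max (max T1 T2) (max T3 (Real.exp (4 + 1 / ε))), by positivity,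
    hT1.trans ((le_max_left _ _).trans (le_max_left _ _)), ?_⟩
  intro T c w w0 hT hBd hw0 hw0' hw0L
  have hTa : T1 ≤ T := ((le_max_left _ _).trans (le_max_left _ _)).trans hT
  have hTb : T2 ≤ T := ((le_max_right _ _).trans (le_max_left _ _)).trans hT
  have hTc : T3 ≤ T := ((le_max_left _ _).trans (le_max_right _ _)).trans hT
  have hTd : Real.exp (4 + 1 / ε) ≤ T := ((le_max_right _ _).trans (le_max_right _ _)).trans hT
  have hT0 : 0 < T := (Real.exp_pos _).trans_le hTd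
  obtain ⟨L, hLdef⟩ : ∃ L, L = Real.log T := ⟨_, rfl⟩
  have hL5 : 4 + 1 / ε ≤ L := by
    rw [hLdef, Real.le_log_iff_exp_le hT0]; exact hTd
  have hε1 : 0 < 1 / ε := by positivity
  have hL4 : 4 ≤ L := by linarith
  have hL0 : 0 < L := by linarith
  have hεL : 1 ≤ ε * L := by
    have h5 : 1 / ε ≤ L := by linarith
    rw [div_le_iff₀ hε] at h5
    linarith
  rw [← hLdef] at hBd hw0L
  have K1 := H1 T c w hTa (by rw [← hLdef]; exact hBd)
  have K2 := H2 T c w w0 hTb (by rw [← hLdef]; exact hBd) hw0 hw0'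
  have K3 := H3 T c w w0 ⌊Real.exp (θ * L)⌋₊ hTc (by rw [← hLdef]; exact hBd) hw0 hw0'
    (by rw [← hLdef]; exact hw0L)
    (by rw [← hLdef]; exact Nat.floor_le (Real.exp_pos _).le)
  rw [← hLdef] at K1 K2 K3 ⊢
  have hlo := hBd.lo
  have hhi : c + w ≤ L / 2 := by
    have := hBd.hi
    nlinarith [hBd.ep]
  have hβ0 := hb.nonneg
  have hβ1 := hb.le_one
  obtain ⟨n0, hn0⟩ : ∃ n0, n0 = N0 θ L c w := ⟨_, rfl⟩
  rw [← hn0] at K2
  obtain ⟨n1, hn1⟩ : ∃ n1, n1 = ⌊Real.exp (θ * L)⌋₊ := ⟨_, rfl⟩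
  rw [← hn1] at K3
  obtain ⟨X, hX⟩ : ∃ X, X = ⌊Real.exp (c + w)⌋₊ := ⟨_, rfl⟩
  obtain ⟨a, ha⟩ : ∃ a : ℕ → ℝ, a = fun j => ‖cf θ L β c w j‖ ^ 2 := ⟨_, rfl⟩
  obtain ⟨b, hbb⟩ : ∃ b : ℕ → ℝ, b = fun j => ‖hf θ L β c w j‖ ^ 2 := ⟨_, rfl⟩
  have ha0 : ∀ j, 0 ≤ a j := fun j => by rw [ha]; positivity
  have hb0 : ∀ j, 0 ≤ b j := fun j => by rw [hbb]; positivity
  have K1' : ∀ N, ∑ j ∈ Finset.Icc 1 N, a j / j ≤ C1 := by
    intro N; rw [ha]; exact K1 N
  have hwL : 0 < w0 * L := by positivity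
  -- first sum
  have S1 : ∑ p ∈ Pb c w, ∑ j ∈ Finset.Icc 1 n0,
      ‖cf θ L β c w j‖ ^ 2 * β ((Real.log p - c) / w) ^ 2 / ((j : ℝ) * p) *
        Real.exp (-(w0 ^ 2 * (Real.log j - Real.log p) ^ 2)) ≤ C1 * C4 / ε / (w0 * L) := by
    rw [Finset.sum_comm]
    have h5 : ∀ j ∈ Finset.Icc 1 n0, ∑ p ∈ Pb c w,
        ‖cf θ L β c w j‖ ^ 2 * β ((Real.log p - c) / w) ^ 2 / ((j : ℝ) * p) *
        Real.exp (-(w0 ^ 2 * (Real.log j - Real.log p) ^ 2)) ≤ a j / j * (C4 / ε / (w0 * L)) := by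
      intro j hj
      have hj0 : (0 : ℝ) < j := by
        have := (Finset.mem_Icc.1 hj).1
        exact_mod_cast this
      have h6 : ∑ p ∈ Pb c w,
          Real.exp (-(w0 ^ 2 * (Real.log j - Real.log p) ^ 2)) / p ≤ C4 / (w0 * (c - w)) :=
        H4 (c - w) w0 (Real.log j) ⌊Real.exp (c + w)⌋₊ (by linarith) hw0 hw0'
      have h7 : C4 / (w0 * (c - w)) ≤ C4 / ε / (w0 * L) := by
        rw [div_div]
        refine div_le_div_of_nonneg_left hC4.le (by positivity) ?_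
        calc ε * (w0 * L) = w0 * (ε * L) := by ring
          _ ≤ w0 * (c - w) := mul_le_mul_of_nonneg_left hlo hw0.le
      refine le_trans ?_ (mul_le_mul_of_nonneg_left (h6.trans h7) (div_nonneg (ha0 j) hj0.le))
      rw [Finset.mul_sum]
      refine Finset.sum_le_sum fun p hp => ?_
      have hp0 : (0 : ℝ) < p := by exact_mod_cast (mem_Pb hp).1.pos
      have h8 : β ((Real.log p - c) / w) ^ 2 ≤ 1 := pow_le_one₀ (hβ0 _) (hβ1 _)
      have h9 : ‖cf θ L β c w j‖ ^ 2 * β ((Real.log p - c) / w) ^ 2 / ((j : ℝ) * p) *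
          Real.exp (-(w0 ^ 2 * (Real.log j - Real.log p) ^ 2)) =
          β ((Real.log p - c) / w) ^ 2 * (a j / j *
            (Real.exp (-(w0 ^ 2 * (Real.log j - Real.log p) ^ 2)) / p)) := by
        rw [ha]
        field_simp
      rw [h9]
      refine mul_le_of_le_one_left ?_ h8
      exact mul_nonneg (div_nonneg (ha0 j) hj0.le) (div_nonneg (Real.exp_pos _).le hp0.le)
    refine (Finset.sum_le_sum h5).trans ?_
    rw [← Finset.sum_mul]
    calc (∑ j ∈ Finset.Icc 1 n0, a j / j) * (C4 / ε / (w0 * L))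
        ≤ C1 * (C4 / ε / (w0 * L)) :=
          mul_le_mul_of_nonneg_right (K1' n0) (by positivity)
      _ = C1 * C4 / ε / (w0 * L) := by ring
  -- mean square of `hf`
  have S3 : ∑ j ∈ Finset.Icc 1 n0, b j / j ≤ 2 * C4 / ε * (9 / (8 * ε) * C1) := by
    have hrec := recip hC4 H4 hε hL4 hεL hlo hhi
    have hrec0 : 0 ≤ ∑ p ∈ Pb c w, 1 / (p : ℝ) :=
      Finset.sum_nonneg fun p _ => by positivity
    have h5 : ∀ j ∈ Finset.Icc 1 n0, b j / j ≤ (∑ p ∈ Pb c w, 1 / (p : ℝ)) *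
        ∑ p ∈ Pb c w, (fun k : ℕ => a k / k) (p * j) := by
      intro j hj
      have hj0 : (0 : ℝ) < j := by
        have := (Finset.mem_Icc.1 hj).1
        exact_mod_cast this
      have h6 := cs hβ0 hβ1 θ L c w j
      rw [hbb]
      beta_reduce
      rw [div_le_iff₀ hj0, mul_assoc]
      refine h6.trans (mul_le_mul_of_nonneg_left ?_ hrec0)
      rw [Finset.sum_mul]
      refine Finset.sum_le_sum fun p hp => ?_
      have hp0 : (0 : ℝ) < p := by exact_mod_cast (mem_Pb hp).1.pos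
      refine le_of_eq ?_
      rw [ha]
      beta_reduce
      rw [Nat.cast_mul, div_mul_eq_mul_div, mul_div_mul_right _ _ hj0.ne']
    refine (Finset.sum_le_sum h5).trans ?_
    rw [← Finset.mul_sum]
    have hcard : ∀ k ∈ Finset.Icc 1 (X * n0),
        ((((Pb c w).filter (fun p => p ∣ k)).card : ℕ) : ℝ) ≤ 9 / (8 * ε) := by
      intro k hk
      obtain ⟨hk1, hk2⟩ := Finset.mem_Icc.1 hk
      refine count hε hL0 hlo hk1 ?_
      have hXe : (X : ℝ) ≤ Real.exp (c + w) := by rw [hX]; exact Nat.floor_le (Real.exp_pos _).le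
      have hNe : (Nn θ L : ℝ) ≤ Real.exp (θ * L + (5 : ℕ) * (θ * L / 5)) :=
        Nat.floor_le (Real.exp_pos _).le
      have hn0e : (n0 : ℝ) = (X : ℝ) * (Nn θ L : ℝ) := by
        rw [hn0, hX]; unfold N0; push_cast; rfl
      calc (k : ℝ) ≤ ((X * n0 : ℕ) : ℝ) := by exact_mod_cast hk2
        _ = (X : ℝ) * ((X : ℝ) * (Nn θ L : ℝ)) := by rw [Nat.cast_mul, hn0e]
        _ ≤ Real.exp (c + w) * (Real.exp (c + w) *
            Real.exp (θ * L + (5 : ℕ) * (θ * L / 5))) := by gcongr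
        _ = Real.exp ((c + w) + ((c + w) + (θ * L + (5 : ℕ) * (θ * L / 5)))) := by
          rw [← Real.exp_add, ← Real.exp_add]
        _ ≤ Real.exp (9 / 8 * L) := by
          refine Real.exp_le_exp.2 ?_
          push_cast
          nlinarith
    have h6 := double (Pb c w) X n0 (fun p hp => ⟨(mem_Pb hp).2.2.2.1, by
      rw [hX]; exact (mem_Pb hp).2.2.2.2⟩) (9 / (8 * ε)) hcard (fun k : ℕ => a k / k)
      (fun k => div_nonneg (ha0 k) (Nat.cast_nonneg k))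
    have h7 := K1' (X * n0)
    calc (∑ p ∈ Pb c w, 1 / (p : ℝ)) *
        ∑ j ∈ Finset.Icc 1 n0, ∑ p ∈ Pb c w, (fun k : ℕ => a k / k) (p * j)
        ≤ (∑ p ∈ Pb c w, 1 / (p : ℝ)) * (9 / (8 * ε) * C1) := by
          refine mul_le_mul_of_nonneg_left (h6.trans ?_) hrec0
          exact mul_le_mul_of_nonneg_left h7 (by positivity)
      _ ≤ 2 * C4 / ε * (9 / (8 * ε) * C1) := mul_le_mul_of_nonneg_right hrec (by positivity)
  -- second sum
  have he : Real.exp 1 ≤ 3 := by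
    have := Real.exp_one_lt_d9
    linarith
  have S2 : ∑ j ∈ Finset.Icc 2 n0, ‖hf θ L β c w j‖ ^ 2 / j *
        Real.exp (-(w0 ^ 2 * Real.log j ^ 2)) ≤
      3 * C3 / (w0 * L) + 3 / (2 * θ) * (2 * C4 / ε * (9 / (8 * ε) * C1)) / (w0 * L) := by
    have h5 : ∀ j ∈ Finset.Icc 2 n0, ‖hf θ L β c w j‖ ^ 2 / j *
        Real.exp (-(w0 ^ 2 * Real.log j ^ 2)) ≤
        (if j ≤ n1 then 3 * (b j / (j : ℝ) ^ (1 + 2 * w0)) else 0) +
          3 / (2 * θ * (w0 * L)) * (b j / j) := by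
      intro j hj
      have hj2 : 2 ≤ j := (Finset.mem_Icc.1 hj).1
      have hj0 : (0 : ℝ) < j := by
        have : 0 < j := by omega
        exact_mod_cast this
      have h6 : Real.exp (-(w0 ^ 2 * Real.log j ^ 2)) ≤ 3 * Real.exp (-(2 * w0 * Real.log j)) := by
        calc Real.exp (-(w0 ^ 2 * Real.log j ^ 2)) ≤ Real.exp (1 + -(2 * w0 * Real.log j)) := by
              refine Real.exp_le_exp.2 ?_
              nlinarith [sq_nonneg (w0 * Real.log j - 1)]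
          _ = Real.exp 1 * Real.exp (-(2 * w0 * Real.log j)) := Real.exp_add _ _
          _ ≤ 3 * Real.exp (-(2 * w0 * Real.log j)) :=
              mul_le_mul_of_nonneg_right he (Real.exp_pos _).le
      have hbj : ‖hf θ L β c w j‖ ^ 2 = b j := by rw [hbb]
      rw [hbj]
      have hbj0 : 0 ≤ b j / j := div_nonneg (hb0 j) hj0.le
      have h7 : 0 ≤ 3 / (2 * θ * (w0 * L)) * (b j / j) := by positivity
      by_cases hjn : j ≤ n1
      · rw [if_pos hjn]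
        have h8 : Real.exp (-(2 * w0 * Real.log j)) = 1 / (j : ℝ) ^ (2 * w0) := by
          rw [Real.rpow_def_of_pos hj0, one_div, ← Real.exp_neg]
          congr 1
          ring
        have h9 : b j / (j : ℝ) ^ (1 + 2 * w0) = b j / j * (1 / (j : ℝ) ^ (2 * w0)) := by
          rw [Real.rpow_add hj0, Real.rpow_one, div_mul_div_comm, mul_one]
        rw [h9]
        rw [h8] at h6
        have h10 := mul_le_mul_of_nonneg_left h6 hbj0
        linarith
      · rw [if_neg hjn, zero_add]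
        push Not at hjn
        rw [hn1] at hjn
        have h8 : Real.exp (θ * L) < j := (Nat.floor_lt (Real.exp_pos _).le).1 hjn
        have h9 : θ * L ≤ Real.log j := by
          rw [Real.le_log_iff_exp_le hj0]
          exact h8.le
        have h10 : Real.exp (-(2 * w0 * Real.log j)) ≤ 1 / (2 * θ * (w0 * L)) := by
          have hy : 0 < 2 * θ * (w0 * L) := by positivity
          calc Real.exp (-(2 * w0 * Real.log j)) ≤ Real.exp (-(2 * θ * (w0 * L))) := by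
                refine Real.exp_le_exp.2 ?_
                nlinarith
            _ ≤ 1 / (2 * θ * (w0 * L)) := by
                rw [Real.exp_neg, ← one_div]
                refine one_div_le_one_div_of_le hy ?_
                have := Real.add_one_le_exp (2 * θ * (w0 * L))
                linarith
        have h11 := mul_le_mul_of_nonneg_left (h6.trans (mul_le_mul_of_nonneg_left h10
          (by norm_num : (0 : ℝ) ≤ 3))) hbj0
        have h12 : b j / j * (3 * (1 / (2 * θ * (w0 * L)))) =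
            3 / (2 * θ * (w0 * L)) * (b j / j) := by ring
        linarith
    refine (Finset.sum_le_sum h5).trans ?_
    rw [Finset.sum_add_distrib]
    refine add_le_add ?_ ?_
    · rw [← Finset.sum_filter, ← Finset.mul_sum]
      have h6 : ∑ j ∈ (Finset.Icc 2 n0).filter (fun j => j ≤ n1), b j / (j : ℝ) ^ (1 + 2 * w0) ≤
          ∑ j ∈ Finset.Icc 2 n1, b j / (j : ℝ) ^ (1 + 2 * w0) := by
        refine Finset.sum_le_sum_of_subset_of_nonneg ?_ fun j _ _ =>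
          div_nonneg (hb0 j) (Real.rpow_nonneg (Nat.cast_nonneg j) _)
        intro j hj
        obtain ⟨h7, h8⟩ := Finset.mem_filter.1 hj
        exact Finset.mem_Icc.2 ⟨(Finset.mem_Icc.1 h7).1, h8⟩
      have h7 : ∑ j ∈ Finset.Icc 2 n1, b j / (j : ℝ) ^ (1 + 2 * w0) ≤ C3 / (w0 * L) ^ 2 := by
        rw [hbb]; exact K3
      have h8 : C3 / (w0 * L) ^ 2 ≤ C3 / (w0 * L) := by
        refine div_le_div_of_nonneg_left hC3.le hwL ?_
        nlinarith
      have h9 : 3 * C3 / (w0 * L) = 3 * (C3 / (w0 * L)) := by ring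
      rw [h9]
      linarith
    · rw [← Finset.mul_sum]
      have h6 : ∑ j ∈ Finset.Icc 2 n0, b j / (j : ℝ) ≤ ∑ j ∈ Finset.Icc 1 n0, b j / (j : ℝ) := by
        refine Finset.sum_le_sum_of_subset_of_nonneg ?_ fun j _ _ =>
          div_nonneg (hb0 j) (Nat.cast_nonneg j)
        exact Finset.Icc_subset_Icc_left (by norm_num)
      calc 3 / (2 * θ * (w0 * L)) * ∑ j ∈ Finset.Icc 2 n0, b j / (j : ℝ)
          ≤ 3 / (2 * θ * (w0 * L)) * (2 * C4 / ε * (9 / (8 * ε) * C1)) :=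
            mul_le_mul_of_nonneg_left (h6.trans S3) (by positivity)
        _ = 3 / (2 * θ) * (2 * C4 / ε * (9 / (8 * ε) * C1)) / (w0 * L) := by
            field_simp
  refine K2.trans ?_
  have hTL : 0 ≤ T / L := by positivity
  calc 4 * (T / L) * (∑ p ∈ Pb c w, ∑ j ∈ Finset.Icc 1 n0,
        ‖cf θ L β c w j‖ ^ 2 * β ((Real.log p - c) / w) ^ 2 / ((j : ℝ) * p) *
          Real.exp (-(w0 ^ 2 * (Real.log j - Real.log p) ^ 2)) +
      ∑ j ∈ Finset.Icc 2 n0, ‖hf θ L β c w j‖ ^ 2 / j *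
        Real.exp (-(w0 ^ 2 * Real.log j ^ 2)))
      ≤ 4 * (T / L) * (C1 * C4 / ε / (w0 * L) + (3 * C3 / (w0 * L) +
          3 / (2 * θ) * (2 * C4 / ε * (9 / (8 * ε) * C1)) / (w0 * L))) :=
        mul_le_mul_of_nonneg_left (add_le_add S1 S2) (by positivity)
    _ = 4 * (C1 * C4 / ε + 3 * C3 + 3 / (2 * θ) * (2 * C4 / ε * (9 / (8 * ε) * C1))) / (w0 * L) *
        (T / L) := by ring

end Pool.Agent.H997.HE.LLNg
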